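import Mathlib

/-!
# A self-map from a map between two spaces

From a bijection `u : X → Y` of Banach spaces which preserves small distances we make one of the
Banach space `Z ⊕₁ X ⊕₁ X ⊕₁ ... ⊕₁ Y ⊕₁ Y ⊕₁ ...` with itself.
-/

set_option autoImplicit false
set_option linter.unusedSectionVars false

open Set Filter Topology

namespace Pool.Agent.KS6_82.MS

abbrev Ix : Type := Option (ℕ ⊕ ℕ)

section

variable (X Y Z : Type) [NormedAddCommGroup X] [NormedSpace ℝ X] [CompleteSpace X]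
  [NormedAddCommGroup Y] [NormedSpace ℝ Y] [CompleteSpace Y]
  [NormedAddCommGroup Z] [NormedSpace ℝ Z] [CompleteSpace Z]

/-- The summands. -/
def Fam : Ix → Type
  | none => Z
  | some (Sum.inl _) => X
  | some (Sum.inr _) => Y

instance famN : ∀ i, NormedAddCommGroup (Fam X Y Z i)
  | none => inferInstanceAs (NormedAddCommGroup Z)
  | some (Sum.inl _) => inferInstanceAs (NormedAddCommGroup X)
  | some (Sum.inr _) => inferInstanceAs (NormedAddCommGroup Y)

instance famS : ∀ i, NormedSpace ℝ (Fam X Y Z i)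
  | none => inferInstanceAs (NormedSpace ℝ Z)
  | some (Sum.inl _) => inferInstanceAs (NormedSpace ℝ X)
  | some (Sum.inr _) => inferInstanceAs (NormedSpace ℝ Y)

instance famC : ∀ i, CompleteSpace (Fam X Y Z i)
  | none => inferInstanceAs (CompleteSpace Z)
  | some (Sum.inl _) => inferInstanceAs (CompleteSpace X)
  | some (Sum.inr _) => inferInstanceAs (CompleteSpace Y)

abbrev Em : Type := lp (Fam X Y Z) 1

variable {X Y Z}

lemma memOne {x : ∀ i, Fam X Y Z i} : Memℓp x 1 ↔ Summable fun i => ‖x i‖ := by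
  rw [memℓp_gen_iff (by simp)]
  simp

lemma hsE (x : Em X Y Z) : HasSum (fun i => ‖x i‖) ‖x‖ := by
  simpa using lp.hasSum_norm (p := 1) (by simp) x

/-- The shift of the index set. -/
def ish : Ix ≃ Ix where
  toFun
    | none => none
    | some (Sum.inl n) => some (Sum.inl (n + 1))
    | some (Sum.inr 0) => some (Sum.inl 0)
    | some (Sum.inr (n + 1)) => some (Sum.inr n)
  invFun
    | none => none
    | some (Sum.inl 0) => some (Sum.inr 0)
    | some (Sum.inl (n + 1)) => some (Sum.inl n)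
    | some (Sum.inr n) => some (Sum.inr (n + 1))
  left_inv := by rintro (_ | n | _ | n) <;> rfl
  right_inv := by rintro (_ | (_ | n) | n) <;> rfl

/-- The component of index `inl 0`. -/
def c0 (x : ∀ i, Fam X Y Z i) : X := x (some (Sum.inl 0))

/-- The shift. -/
def sh (u : X → Y) (x : ∀ i, Fam X Y Z i) : ∀ i, Fam X Y Z i
  | none => x none
  | some (Sum.inl n) => x (some (Sum.inl (n + 1)))
  | some (Sum.inr 0) => u (x (some (Sum.inl 0)))
  | some (Sum.inr (n + 1)) => x (some (Sum.inr n))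

/-- The backward shift. -/
def shi (v : Y → X) (x : ∀ i, Fam X Y Z i) : ∀ i, Fam X Y Z i
  | none => x none
  | some (Sum.inl 0) => v (x (some (Sum.inr 0)))
  | some (Sum.inl (n + 1)) => x (some (Sum.inl n))
  | some (Sum.inr n) => x (some (Sum.inr (n + 1)))

lemma sh_shi (u : X → Y) (v : Y → X) (h : ∀ y, u (v y) = y) (x : ∀ i, Fam X Y Z i) :
    sh u (shi v x) = x := by
  funext i
  rcases i with _ | n | _ | n
  · rfl
  · rfl
  · exact h _
  · rfl

lemma shi_sh (u : X → Y) (v : Y → X) (h : ∀ y, v (u y) = y) (x : ∀ i, Fam X Y Z i) :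
    shi v (sh u x) = x := by
  funext i
  rcases i with _ | (_ | n) | n
  · rfl
  · exact h _
  · rfl
  · rfl

lemma sh_norm {u : X → Y} (x y : ∀ i, Fam X Y Z i) (i : Ix)
    (h : ‖u (c0 x) - u (c0 y)‖ = ‖c0 x - c0 y‖) :
    ‖sh u x i - sh u y i‖ = ‖x (ish i) - y (ish i)‖ := by
  rcases i with _ | n | _ | n
  · rfl
  · rfl
  · exact h
  · rfl

lemma sh_norm_le {u : X → Y} (hu : ∀ a b, ‖u a - u b‖ ≤ ‖a - b‖) (x y : ∀ i, Fam X Y Z i)
    (i : Ix) : ‖sh u x i - sh u y i‖ ≤ ‖x (ish i) - y (ish i)‖ := by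
  rcases i with _ | n | _ | n
  · exact le_rfl
  · exact le_rfl
  · exact hu _ _
  · exact le_rfl

lemma sh_zero {u : X → Y} (h0 : u 0 = 0) : sh (Z := Z) u 0 = 0 := by
  funext i
  rcases i with _ | n | _ | n
  · rfl
  · rfl
  · exact h0
  · rfl

lemma sh_mem {u : X → Y} (hu : ∀ a b, ‖u a - u b‖ ≤ ‖a - b‖) (h0 : u 0 = 0) (x : Em X Y Z) :
    Memℓp (sh u x) 1 := by
  rw [memOne]
  refine Summable.of_nonneg_of_le (fun i => norm_nonneg _) (fun i => ?_)
    ((ish.summable_iff).2 (hsE x).summable)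
  have := sh_norm_le hu x 0 i
  rw [sh_zero h0] at this
  simpa using this

lemma shi_mem (v : Y → X) (x : Em X Y Z) : Memℓp (shi v x) 1 := by
  rw [memOne]
  have h1 : Summable fun i => ‖x (ish.symm i)‖ := (ish.symm.summable_iff).2 (hsE x).summable
  refine h1.congr_cofinite ?_
  have : ({some (Sum.inl 0)} : Set Ix)ᶜ ∈ cofinite := by
    rw [mem_cofinite, compl_compl]; exact finite_singleton _
  filter_upwards [this] with i hi
  rcases i with _ | (_ | n) | n
  · rfl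
  · exact absurd rfl hi
  · rfl
  · rfl

/-- The self-map. -/
def Sh (u : X ≃ Y) (hu : ∀ a b, ‖u a - u b‖ ≤ ‖a - b‖) (h0 : u 0 = 0) : Em X Y Z ≃ Em X Y Z where
  toFun x := ⟨sh u x, sh_mem hu h0 x⟩
  invFun x := ⟨shi u.symm x, shi_mem u.symm x⟩
  left_inv x := lp.ext (shi_sh u u.symm (fun y => u.symm_apply_apply y) (x : ∀ i, Fam X Y Z i))
  right_inv x := lp.ext (sh_shi u u.symm (fun y => u.apply_symm_apply y) (x : ∀ i, Fam X Y Z i))

variable (u : X ≃ Y) (hu : ∀ a b, ‖u a - u b‖ ≤ ‖a - b‖) (h0 : u 0 = 0)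

lemma Sh_apply (x : Em X Y Z) : ((Sh u hu h0 x : Em X Y Z) : ∀ i, Fam X Y Z i) = sh u x := rfl

lemma Sh_le (x y : Em X Y Z) : ‖Sh u hu h0 x - Sh u hu h0 y‖ ≤ ‖x - y‖ := by
  refine hasSum_le (fun i => ?_) (hsE (Sh u hu h0 x - Sh u hu h0 y))
    ((ish.hasSum_iff).2 (hsE (x - y)))
  simp only [lp.coeFn_sub, Pi.sub_apply, Sh_apply, Function.comp]
  exact sh_norm_le hu x y i

lemma Sh_loc {r : ℝ} (hr : ∀ a b, ‖a - b‖ ≤ r → ‖u a - u b‖ = ‖a - b‖) (x y : Em X Y Z)
    (h : ‖x - y‖ ≤ r) : ‖Sh u hu h0 x - Sh u hu h0 y‖ = ‖x - y‖ := by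
  have h1 : ∀ i, ‖sh u x i - sh u y i‖ = ‖(x : ∀ i, Fam X Y Z i) (ish i) - y (ish i)‖ := by
    intro i
    refine sh_norm _ _ i (hr _ _ ?_)
    have := (lp.norm_apply_le_norm (by simp) (x - y) (some (Sum.inl 0))).trans h
    simp only [lp.coeFn_sub, Pi.sub_apply] at this
    exact this
  have h2 := hsE (Sh u hu h0 x - Sh u hu h0 y)
  have h3 := (ish.hasSum_iff).2 (hsE (x - y))
  simp only [lp.coeFn_sub, Pi.sub_apply, Sh_apply, Function.comp_def] at h2 h3
  simp only [h1] at h2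
  exact h2.unique h3

/-- The embedding of `Z`. -/
noncomputable def jj : Z →ₗᵢ[ℝ] Em X Y Z where
  toFun z := lp.single 1 (none : Ix) (show Fam X Y Z none from z)
  map_add' a b := lp.single_add 1 (none : Ix) _ _
  map_smul' c a := lp.single_smul 1 (none : Ix) c _
  norm_map' z := lp.norm_single (by simp) (none : Ix) _

lemma jj_none (z : Z) : (jj z : Em X Y Z) none = z :=
  lp.single_apply_self 1 (none : Ix) (show Fam X Y Z none from z)

lemma jj_some (z : Z) (k : ℕ ⊕ ℕ) : (jj z : Em X Y Z) (some k) = 0 :=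
  lp.single_apply_ne 1 (none : Ix) (show Fam X Y Z none from z) (by simp)

/-- The projection onto `Z`. -/
noncomputable def qq : Em X Y Z →L[ℝ] Z :=
  LinearMap.mkContinuous
    { toFun := fun x => (show Z from (x : ∀ i, Fam X Y Z i) none)
      map_add' := fun _ _ => rfl
      map_smul' := fun _ _ => rfl } 1
    (fun x => by
      rw [one_mul]
      exact lp.norm_apply_le_norm (by simp) x (none : Ix))

lemma qq_apply (x : Em X Y Z) : qq x = (x : ∀ i, Fam X Y Z i) none := rfl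

lemma qq_le (x : Em X Y Z) : ‖qq x‖ ≤ ‖x‖ := lp.norm_apply_le_norm (by simp) x (none : Ix)

lemma qq_jj (z : Z) : qq (jj (X := X) (Y := Y) z) = z :=
  jj_none (X := X) (Y := Y) z

lemma qq_Sh (x : Em X Y Z) : qq (Sh u hu h0 x) = qq x := by
  rw [qq_apply, qq_apply, Sh_apply]
  rfl

lemma Sh_jj (z : Z) : Sh u hu h0 (jj z) = jj z := by
  refine lp.ext ?_
  rw [Sh_apply]
  funext i
  rcases i with _ | n | _ | n
  · rfl
  · show (jj z : Em X Y Z) (some (Sum.inl (n + 1))) = (jj z : Em X Y Z) (some (Sum.inl n))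
    rw [jj_some, jj_some]; rfl
  · show u (c0 (jj z : Em X Y Z)) = (jj z : Em X Y Z) (some (Sum.inr 0))
    rw [jj_some, c0, jj_some]; exact h0
  · show (jj z : Em X Y Z) (some (Sum.inr n)) = (jj z : Em X Y Z) (some (Sum.inr (n + 1)))
    rw [jj_some, jj_some]; rfl

/-- The vector with component `a` of index `inl 0`. -/
noncomputable def ii (a : X) : Em X Y Z :=
  lp.single 1 (some (Sum.inl 0) : Ix) (show Fam X Y Z (some (Sum.inl 0)) from a)

lemma norm_ii (a : X) : ‖(ii a : Em X Y Z)‖ = ‖a‖ :=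
  lp.norm_single (by simp) (some (Sum.inl 0) : Ix) _

lemma ii_self (a : X) : (ii a : Em X Y Z) (some (Sum.inl 0)) = a :=
  lp.single_apply_self 1 (some (Sum.inl 0) : Ix) (show Fam X Y Z (some (Sum.inl 0)) from a)

lemma ii_ne (a : X) {i : Ix} (h : i ≠ some (Sum.inl 0)) : (ii a : Em X Y Z) i = 0 :=
  lp.single_apply_ne 1 (some (Sum.inl 0) : Ix) (show Fam X Y Z (some (Sum.inl 0)) from a) h

/-- The vector with component `b` of index `inr 0`. -/
noncomputable def kk (b : Y) : Em X Y Z :=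
  lp.single 1 (some (Sum.inr 0) : Ix) (show Fam X Y Z (some (Sum.inr 0)) from b)

lemma kk_self (b : Y) : (kk b : Em X Y Z) (some (Sum.inr 0)) = b :=
  lp.single_apply_self 1 (some (Sum.inr 0) : Ix) (show Fam X Y Z (some (Sum.inr 0)) from b)

lemma kk_ne (b : Y) {i : Ix} (h : i ≠ some (Sum.inr 0)) : (kk b : Em X Y Z) i = 0 :=
  lp.single_apply_ne 1 (some (Sum.inr 0) : Ix) (show Fam X Y Z (some (Sum.inr 0)) from b) h

lemma norm_kk (b : Y) : ‖(kk b : Em X Y Z)‖ = ‖b‖ :=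
  lp.norm_single (by simp) (some (Sum.inr 0) : Ix) _

lemma Sh_ii (a : X) : Sh u hu h0 (ii a : Em X Y Z) = kk (u a) := by
  refine lp.ext ?_
  rw [Sh_apply]
  funext i
  rcases i with _ | n | _ | n
  · show (ii a : Em X Y Z) none = _
    rw [ii_ne a (by simp), kk_ne _ (by simp)]
  · show (ii a : Em X Y Z) (some (Sum.inl (n + 1))) = _
    rw [ii_ne a (by simp), kk_ne _ (by simp)]; rfl
  · show u (c0 (ii a : Em X Y Z)) = (kk (u a) : Em X Y Z) (some (Sum.inr 0))
    rw [kk_self, c0, ii_self]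
  · show (ii a : Em X Y Z) (some (Sum.inr n)) = _
    rw [ii_ne a (by simp), kk_ne _ (by simp)]; rfl

lemma norm_Sh_ii (a : X) : ‖Sh u hu h0 (ii a : Em X Y Z)‖ = ‖u a‖ := by
  rw [Sh_ii, norm_kk]

/-- From a map between two spaces to a self-map. -/
theorem selfMap {r : ℝ} (_hr0 : 0 < r) (hr : ∀ a b, ‖a - b‖ ≤ r → ‖u a - u b‖ = ‖a - b‖)
    (hu : ∀ a b, ‖u a - u b‖ ≤ ‖a - b‖) (h0 : u 0 = 0) {c : ℝ} (hc0 : 0 < c) :
    ∃ (E : Type) (_ : NormedAddCommGroup E) (_ : NormedSpace ℝ E) (_ : CompleteSpace E)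
      (j : Z →ₗᵢ[ℝ] E) (q : E →L[ℝ] Z) (V : E ≃ E),
      (∀ z, q (j z) = z) ∧ (∀ x, ‖q x‖ ≤ ‖x‖) ∧
      (∀ z, V (j z) = j z) ∧ (∀ x, q (V x) = q x) ∧
      (∀ x y, dist x y ≤ c * r → dist (V x) (V y) = dist x y) ∧
      (∀ x y, dist (V x) (V y) ≤ dist x y) ∧
      ∀ a : X, ∃ x, ‖V x‖ = c * ‖u a‖ ∧ ‖x‖ = c * ‖a‖ := by
  let S : Em X Y Z ≃ Em X Y Z := Sh u hu h0
  let V : Em X Y Z ≃ Em X Y Z :=
    { toFun := fun x => c • S (c⁻¹ • x)
      invFun := fun x => c • S.symm (c⁻¹ • x)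
      left_inv := fun x => by
        simp only [smul_smul, inv_mul_cancel₀ hc0.ne', one_smul, Equiv.symm_apply_apply,
          mul_inv_cancel₀ hc0.ne']
      right_inv := fun x => by
        simp only [smul_smul, inv_mul_cancel₀ hc0.ne', one_smul, Equiv.apply_symm_apply,
          mul_inv_cancel₀ hc0.ne'] }
  have hV : ∀ x, V x = c • S (c⁻¹ • x) := fun _ => rfl
  have hVd : ∀ x y, dist (V x) (V y) = c * ‖S (c⁻¹ • x) - S (c⁻¹ • y)‖ := fun x y => by
    rw [dist_eq_norm, hV, hV, ← smul_sub, norm_smul, Real.norm_eq_abs, abs_of_pos hc0]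
  have hd : ∀ x y : Em X Y Z, ‖c⁻¹ • x - c⁻¹ • y‖ = c⁻¹ * dist x y := fun x y => by
    rw [dist_eq_norm, ← smul_sub, norm_smul, Real.norm_eq_abs, abs_of_pos (inv_pos.2 hc0)]
  refine ⟨Em X Y Z, inferInstance, inferInstance, inferInstance, jj, qq, V, fun z => qq_jj z,
    fun x => qq_le x, fun z => ?_, fun x => ?_, fun x y h => ?_, fun x y => ?_, fun a => ?_⟩
  · have e : c⁻¹ • (jj z : Em X Y Z) = jj (c⁻¹ • z) := (map_smul jj c⁻¹ z).symm
    have e' : S (jj (c⁻¹ • z)) = jj (c⁻¹ • z) := Sh_jj u hu h0 _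
    rw [hV, e, e', ← e, smul_smul, mul_inv_cancel₀ hc0.ne', one_smul]
  · rw [hV, map_smul, qq_Sh, map_smul, smul_smul, mul_inv_cancel₀ hc0.ne', one_smul]
  · rw [hVd, Sh_loc u hu h0 hr _ _ ?_, hd, mul_inv_cancel_left₀ hc0.ne']
    rw [hd]
    calc c⁻¹ * dist x y ≤ c⁻¹ * (c * r) := by gcongr
      _ = r := inv_mul_cancel_left₀ hc0.ne' r
  · rw [hVd]
    calc c * ‖S (c⁻¹ • x) - S (c⁻¹ • y)‖ ≤ c * ‖c⁻¹ • x - c⁻¹ • y‖ := by
          gcongr
          exact Sh_le u hu h0 _ _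
      _ = dist x y := by rw [hd, mul_inv_cancel_left₀ hc0.ne']
  · refine ⟨c • ii a, ?_, ?_⟩
    · rw [hV, smul_smul, inv_mul_cancel₀ hc0.ne', one_smul, norm_smul, norm_Sh_ii,
        Real.norm_eq_abs, abs_of_pos hc0]
    · rw [norm_smul, norm_ii, Real.norm_eq_abs, abs_of_pos hc0]

end

end Pool.Agent.KS6_82.MS
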